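import Mathlib

set_option autoImplicit false
set_option maxHeartbeats 400000

namespace Pool.Agent.Results.MP_378045_ag.Quadric

open MvPolynomial Finset
open scoped ComplexOrder

/-- The mixed determinant: an ordered tuple of pairwise disjoint sets `S j` covering `Fin n` is
the family of fibres of a map `s : Fin n → Fin m`. -/
noncomputable def eta {R : Type} [CommRing R] {n m : ℕ} (L : Fin m → Matrix (Fin n) (Fin n) R) :
    R := ∑ s : Fin n → Fin m, ∏ j, ((L j).toSquareBlock s j).det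

lemma eta_map {R S : Type} [CommRing R] [CommRing S] {n m : ℕ} (φ : R →+* S)
    (L : Fin m → Matrix (Fin n) (Fin n) R) : φ (eta L) = eta fun j => (L j).map φ := by
  simp only [eta, map_sum, map_prod, RingHom.map_det]
  rfl

lemma eta_two {m : ℕ} (L : Fin m → Matrix (Fin 2) (Fin 2) ℂ) :
    eta L = (∑ j, L j 0 0) * (∑ j, L j 1 1) - ∑ j, L j 0 1 * L j 1 0 := by
  have h : ∀ s : Fin 2 → Fin m, ∏ j, ((L j).toSquareBlock s j).det =
      L (s 0) 0 0 * L (s 1) 1 1 - if s 0 = s 1 then L (s 0) 0 1 * L (s 0) 1 0 else 0 := by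
    intro s
    have h1 := Matrix.BlockTriangular.det_fintype (b := s)
      (M := Matrix.of fun i i' => if s i = s i' then L (s i) i i' else 0)
      (fun i j h => by simp [h.ne'])
    rw [Matrix.det_fin_two] at h1
    refine Eq.trans (prod_congr rfl fun j _ => congrArg _ ?_) (h1.symm.trans ?_)
    · ext ⟨i, hi⟩ ⟨i', hi'⟩
      simp [Matrix.toSquareBlock_def, hi, hi']
    · by_cases h2 : s 0 = s 1 <;> simp [h2]
  rw [eta, sum_congr rfl fun s _ => h s, ← (finTwoArrowEquiv (Fin m)).symm.sum_comp,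
    Fintype.sum_prod_type, sum_mul_sum, ← sum_sub_distrib]
  simp

/-- coefficient matrix of the quadric -/
def dd (k l : Fin 10) : ℝ := if k = l then 0 else 1 + ((k : ℝ) - l) ^ 2

lemma dd_nonneg (k l : Fin 10) : 0 ≤ dd k l := by
  unfold dd
  split_ifs <;> positivity

lemma neg_type (w : Fin 10 → ℝ) (h : ∑ k, w k = 0) : ∑ k, ∑ l, dd k l * w k * w l ≤ 0 := by
  have h1 : ∀ k l, dd k l * w k * w l = (w k + k ^ 2 * w k) * w l + w k * (l ^ 2 * w l) -
      2 * ((k * w k) * (l * w l)) - if k = l then w k ^ 2 else 0 := fun k l => by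
    unfold dd
    split_ifs with h
    · subst h; ring
    · ring
  simp only [h1, sum_sub_distrib, sum_add_distrib, ← mul_sum, ← sum_mul, h, sum_ite_eq, mem_univ,
    if_true]
  nlinarith [mul_self_nonneg (∑ k : Fin 10, (k : ℝ) * w k),
    sum_nonneg fun (k : Fin 10) (_ : k ∈ univ) => sq_nonneg (w k)]

lemma comb {β : Type} [DecidableEq β] (c : Fin 10 → β) (a b x y : Fin 10 → ℝ)
    (h : ∀ k l, 2 * dd k l = a k * b l + a l * b k -
      2 * if c k = c l then x k * x l + y k * y l else 0) : False := by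
  have h1 : ∀ U : Finset (Fin 10), (∀ k ∈ U, ∀ l, c k = c l → l ∈ U) → 2 < U.card →
      U.card ≤ 7 → False := by
    intro U h1 h2 h3
    obtain ⟨k1, k2, k3, a1, a2, a3, a4, a5, a6⟩ := two_lt_card_iff.1 h2
    obtain ⟨l1, l2, l3, b1, b2, b3, b4, b5, b6⟩ := two_lt_card_iff.1 (show 2 < Uᶜ.card by
      rw [card_compl, Fintype.card_fin]; omega)
    have h4 : ∀ k ∈ U, ∀ l ∈ Uᶜ, 2 * (1 + ((k : ℝ) - l) ^ 2) = a k * b l + a l * b k := by
      intro k hk l hl
      have h4 : c k ≠ c l := fun h4 => mem_compl.1 hl (h1 k hk l h4)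
      have h5 : k ≠ l := fun h5 => h4 (by rw [h5])
      simpa [dd, h4, h5] using h k l
    have h5 : ∀ k l : Fin 10, k ≠ l → (k : ℝ) - l ≠ 0 := fun k l h =>
      sub_ne_zero.2 (by exact_mod_cast Fin.val_ne_of_ne h)
    have h6 : ∀ f : ℝ → ℝ → ℝ, (∀ s t, f s t = 2 * (1 + (s - t) ^ 2)) →
      f k1 l1 * (f k2 l2 * f k3 l3 - f k2 l3 * f k3 l2) -
      f k1 l2 * (f k2 l1 * f k3 l3 - f k2 l3 * f k3 l1) +
      f k1 l3 * (f k2 l1 * f k3 l2 - f k2 l2 * f k3 l1) =
      16 * (((k1 : ℝ) - k2) * (k1 - k3) * (k2 - k3) * (l1 - l2) * (l1 - l3) * (l2 - l3)) :=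
      fun f hf => by simp only [hf]; ring
    have h7 := h6 _ fun _ _ => rfl
    rw [h4 _ a1 _ b1, h4 _ a1 _ b2, h4 _ a1 _ b3, h4 _ a2 _ b1, h4 _ a2 _ b2, h4 _ a2 _ b3,
      h4 _ a3 _ b1, h4 _ a3 _ b2, h4 _ a3 _ b3] at h7
    exact mul_ne_zero (mul_ne_zero (mul_ne_zero (mul_ne_zero (mul_ne_zero (h5 _ _ a4) (h5 _ _ a5))
      (h5 _ _ a6)) (h5 _ _ b4)) (h5 _ _ b5)) (h5 _ _ b6) (by linear_combination (-1 / 16) * h7)
  obtain ⟨F, hF⟩ : ∃ F : Fin 10 → Finset (Fin 10), ∀ k l, l ∈ F k ↔ c l = c k :=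
    ⟨fun k => univ.filter fun l => c l = c k, by simp⟩
  have h2 : ∀ k, (F k).card ≤ 2 := by
    intro k
    by_contra h2
    refine h1 (F k) (fun i hi l hl => (hF _ _).2 (hl.symm.trans ((hF _ _).1 hi))) (not_le.1 h2) ?_
    by_contra h3
    obtain ⟨e, he⟩ : ∃ e : Fin 8 ↪o Fin 10, ∀ i, c (e i) = c k :=
      ⟨(F k).orderEmbOfCardLe (by omega), fun i => (hF _ _).1 (orderEmbOfCardLe_mem _ _ i)⟩
    have h4 : (Matrix.of fun (i : Fin 8) => ![1 + (e i : ℝ) ^ 2, -2 * (e i : ℝ), (1 : ℝ), a (e i), b (e i),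
        x (e i), y (e i)]) * (Matrix.of fun (i : Fin 8) => ![1, (e i : ℝ), (e i : ℝ) ^ 2,
        -b (e i) / 2, -a (e i) / 2, x (e i), y (e i)]).transpose = 1 := by
      ext i j
      have h4 := h (e i) (e j)
      simp only [he, if_true, dd, e.injective.eq_iff] at h4
      simp only [Matrix.mul_apply, Fin.sum_univ_seven, Matrix.one_apply]
      simp
      split_ifs at h4 ⊢ with h5
      · subst h5
        linear_combination (1 / 2) * h4
      · linear_combination (1 / 2) * h4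
    have h5 := (Matrix.rank_mul_le_left _ _).trans (Matrix.rank_le_width _) |>.trans_eq'
      (congrArg Matrix.rank h4)
    simp at h5
  have h3 : ∀ U : Finset (Fin 10), U.card < 10 → ∃ l, l ∉ U := fun U hU => by
    by_contra h3
    push Not at h3
    simp [eq_univ_of_forall h3] at hU
  obtain ⟨k1, h4⟩ := h3 (F 0) (by have := h2 0; omega)
  have h5 := card_union_le (F 0) (F k1)
  obtain ⟨k2, h6⟩ := h3 (F 0 ∪ F k1) (by have := h2 0; have := h2 k1; omega)
  have h7 := card_union_le (F 0 ∪ F k1) (F k2)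
  refine h1 (F 0 ∪ F k1 ∪ F k2) (fun i hi l hl => by simpa [hF, ← hl] using hi)
    (two_lt_card_iff.2 ⟨0, k1, k2, by simp [hF], by simp [hF], by simp [hF], ?_, ?_, ?_⟩)
    (by have := h2 0; have := h2 k1; have := h2 k2; omega)
  · rintro rfl
    simp [hF] at h4
  · rintro rfl
    simp [hF] at h6
  · rintro rfl
    simp [hF] at h6

lemma psd (A : Matrix (Fin 2) (Fin 2) ℂ) (h : A.PosSemidef) : ∃ a b x y : ℝ, 0 ≤ a ∧ 0 ≤ b ∧
    x ^ 2 + y ^ 2 ≤ a * b ∧ A 0 0 = a ∧ A 1 1 = b ∧ A 0 1 = x + y * Complex.I ∧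
    A 1 0 = x - y * Complex.I := by
  obtain ⟨h1, h2⟩ := Complex.nonneg_iff.1 (h.diag_nonneg (i := 0))
  obtain ⟨h3, h4⟩ := Complex.nonneg_iff.1 (h.diag_nonneg (i := 1))
  have h5 := (Complex.nonneg_iff.1 h.det_nonneg).1
  have h6 := h.isHermitian.apply 1 0
  rw [Matrix.det_fin_two, ← h6] at h5
  refine ⟨(A 0 0).re, (A 1 1).re, (A 0 1).re, (A 0 1).im, h1, h3, ?_, ?_, ?_, ?_, ?_⟩
  · simp [← h2, ← h4] at h5
    linarith
  · exact Complex.ext (by simp) (by simp [← h2])
  · exact Complex.ext (by simp) (by simp [← h4])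
  · simp
  · rw [← h6]
    exact Complex.ext (by simp) (by simp)

theorem result : ∃ (l n : ℕ) (f : MvPolynomial (Fin l) ℝ), f.IsHomogeneous n ∧ f ≠ 0 ∧
    (∀ z : Fin l → ℂ, (∀ k, 0 < (z k).im) → aeval z f ≠ 0) ∧ (∀ d, 0 ≤ coeff d f) ∧
    ¬ ∃ (m : ℕ) (A : Fin m → Fin l → Matrix (Fin n) (Fin n) ℂ), (∀ j k, (A j k).PosSemidef) ∧
      map (algebraMap ℝ ℂ) f =
        eta fun j => ∑ k, (X k : MvPolynomial (Fin l) ℂ) • (A j k).map C := by
  have hs : ∀ z : Fin 10 → ℂ, (∀ k, 0 < (z k).im) →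
      aeval z (∑ k, ∑ l, C (dd k l) * X k * X l : MvPolynomial (Fin 10) ℝ) ≠ 0 := by
    intro z hz h
    have h1 := congrArg Complex.re h
    have h2 := congrArg Complex.im h
    simp [sum_add_distrib] at h1 h2
    have h3 := neg_type (fun k => (∑ i, (z i).im) * (z k).re - (∑ i, (z i).re) * (z k).im)
      (by simp only [sum_sub_distrib, ← mul_sum]; ring)
    have h4 : 0 < ∑ i, (z i).im := sum_pos (fun i _ => hz i) univ_nonempty
    generalize ∑ i, (z i).im = s at h3 h4
    generalize ∑ i, (z i).re = t at h3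
    have h5 : 0 < ∑ k, ∑ l, dd k l * (z k).im * (z l).im :=
      sum_pos' (fun k _ => sum_nonneg fun l _ =>
        mul_nonneg (mul_nonneg (dd_nonneg _ _) (hz k).le) (hz l).le) ⟨0, mem_univ _, sum_pos'
        (fun l _ => mul_nonneg (mul_nonneg (dd_nonneg _ _) (hz 0).le) (hz l).le)
        ⟨1, mem_univ _, mul_pos (mul_pos (by simp [dd]) (hz 0)) (hz 1)⟩⟩
    have h6 : ∀ k l, dd k l * (s * (z k).re - t * (z k).im) * (s * (z l).re - t * (z l).im) =
        s ^ 2 * (dd k l * (z k).re * (z l).re) - s * t * (dd k l * (z k).re * (z l).im) -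
        s * t * (dd k l * (z k).im * (z l).re) + t ^ 2 * (dd k l * (z k).im * (z l).im) :=
      fun k l => by ring
    simp only [h6, sum_add_distrib, sum_sub_distrib, ← mul_sum] at h3
    rw [sub_eq_zero.1 h1, eq_neg_of_add_eq_zero_left h2] at h3
    nlinarith [mul_pos (pow_pos h4 2) h5, mul_nonneg (sq_nonneg t) h5.le]
  refine ⟨10, 2, ∑ k, ∑ l, C (dd k l) * X k * X l, ?_, fun h => ?_, hs, fun d => ?_, ?_⟩
  · exact IsHomogeneous.sum _ _ _ fun k _ => IsHomogeneous.sum _ _ _ fun l _ =>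
      ((isHomogeneous_X ℝ k).C_mul _).mul (isHomogeneous_X ℝ l)
  · exact hs (fun _ => Complex.I) (by simp) (by rw [h, map_zero])
  · simp only [coeff_sum, X, C_apply, monomial_mul, coeff_monomial]
    refine sum_nonneg fun k _ => sum_nonneg fun l _ => ?_
    split_ifs
    · simpa using dd_nonneg k l
    · rfl
  rintro ⟨m, A, h1, h2⟩
  choose a b x y ha hb hxy h00 h11 h01 h10 using fun j k => psd _ (h1 j k)
  have h3 : ∀ z : Fin 10 → ℝ, ∑ k, ∑ l, dd k l * z k * z l =
      (∑ j, ∑ k, z k * a j k) * (∑ j, ∑ k, z k * b j k) -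
      ∑ j, ((∑ k, z k * x j k) ^ 2 + (∑ k, z k * y j k) ^ 2) := by
    intro z
    have h3 := congrArg (eval fun k => (z k : ℂ)) h2
    have h4 : ∀ j, (∑ k, (X k : MvPolynomial (Fin 10) ℂ) • (A j k).map C).map
        (eval fun k => (z k : ℂ)) = ∑ k, (z k : ℂ) • A j k := fun j => by
      ext i i'
      simp [Matrix.sum_apply]
    rw [eta_map] at h3
    simp only [h4, eta_two] at h3
    simp only [Matrix.sum_apply, Matrix.smul_apply, smul_eq_mul, h00, h11, h01, h10, mul_add,
      mul_sub, sum_add_distrib, sum_sub_distrib, ← mul_assoc, ← sum_mul] at h3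
    apply Complex.ofReal_injective
    push_cast
    refine Eq.trans (by simp) (h3.trans ?_)
    congr 1
    rw [sum_mul, ← sum_sub_distrib]
    refine sum_congr rfl fun j _ => ?_
    linear_combination (-(∑ k, (z k : ℂ) * y j k) ^ 2) * Complex.I_sq
  have h4 : ∀ k l, 2 * dd k l = (∑ j, a j k + ∑ j, a j l) * (∑ j, b j k + ∑ j, b j l) -
      ∑ j, ((x j k + x j l) ^ 2 + (y j k + y j l) ^ 2) := by
    intro k l
    have h4 := h3 (Pi.single k 1 + Pi.single l 1)
    simp only [Pi.add_apply, Pi.single_apply, add_mul, mul_add, sum_add_distrib, ite_mul, mul_ite,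
      one_mul, mul_one, zero_mul, mul_zero, sum_ite_eq', mem_univ, if_true] at h4
    have h5 : ∀ k, dd k k = 0 := fun k => by simp [dd]
    have h6 : dd l k = dd k l := by
      simp only [dd, eq_comm (a := l)]
      split_ifs <;> ring
    rw [h5, h5, h6] at h4
    rw [sum_add_distrib]
    linear_combination h4
  have h5 : ∀ k, (∑ j, a j k) * ∑ j, b j k = ∑ j, x j k ^ 2 + ∑ j, y j k ^ 2 := by
    intro k
    have h5 := h4 k k
    simp only [dd, if_true, ← two_mul, mul_pow, sum_add_distrib, ← mul_sum] at h5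
    linear_combination (-1 / 4) * h5
  have h6 : ∀ k, ∃ c : Option (Fin m), ∀ j, some j ≠ c → x j k = 0 ∧ y j k = 0 := by
    intro k
    by_cases h6 : ∀ j, x j k = 0 ∧ y j k = 0
    · exact ⟨none, fun j _ => h6 j⟩
    obtain ⟨i, h6⟩ := not_forall.1 h6
    refine ⟨i, fun j h7 => ?_⟩
    have h8 : j ≠ i := fun h => h7 (by rw [h])
    have h9 : ∑ t, (x t k ^ 2 + y t k ^ 2 + if t = i then a i k * b j k else 0) ≤
        ∑ t, a t k * ∑ u, b u k := sum_le_sum fun t _ => by
      have := hxy t k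
      split_ifs with h9
      · subst h9
        nlinarith [mul_le_mul_of_nonneg_left
          (add_le_sum (fun u _ => hb u k) (mem_univ j) (mem_univ t) h8) (ha t k)]
      · nlinarith [mul_le_mul_of_nonneg_left
          (single_le_sum (fun u _ => hb u k) (mem_univ t)) (ha t k)]
    simp only [sum_add_distrib, ← sum_mul, h5, sum_ite_eq', mem_univ, if_true] at h9
    have h10 := hxy i k
    have h11 := hxy j k
    rcases mul_eq_zero.1 (le_antisymm (by linarith) (mul_nonneg (ha i k) (hb j k))) with h | h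
    · rw [h] at h10
      exact absurd ⟨by nlinarith, by nlinarith⟩ h6
    · rw [h] at h11
      exact ⟨by nlinarith, by nlinarith⟩
  choose c hc using h6
  refine comb c (fun k => ∑ j, a j k) (fun k => ∑ j, b j k)
    (fun k => (c k).elim 0 fun j => x j k) (fun k => (c k).elim 0 fun j => y j k) fun k l => ?_
  have h7 : ∑ j, (x j k * x j l + y j k * y j l) = if c k = c l then
      ((c k).elim 0 fun j => x j k) * ((c l).elim 0 fun j => x j l) +
      ((c k).elim 0 fun j => y j k) * ((c l).elim 0 fun j => y j l) else 0 := by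
    have h7 := hc k
    have h8 := hc l
    rcases h9 : c k with _ | i
    · simp [h9] at h7
      simp [h7]
    · rw [sum_eq_single i (fun j _ h => by simp [h7 j (by simpa [h9] using h)]) (by simp)]
      split_ifs with h10
      · simp [← h10]
      · simp [h8 i h10]
  rw [← h7, h4]
  simp only [add_sq, sum_add_distrib, mul_assoc, ← mul_sum]
  linear_combination h5 k + h5 l

end Pool.Agent.Results.MP_378045_ag.Quadric
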